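import Pool.Agent.Work.MP_db9399_xq.PrepQ
import Pool.Agent.Work.MP_db9399_sx_helper38.END

/-!
# ENDQ: from `PrepQ` to the total colouring (helper55; compare END of helper38)
-/

set_option autoImplicit false

namespace Pool.Agent.Work.MP_db9399_xq.helper55

open Finset Classical
open Pool.Agent.Work.MP_db9399_all (nb)
open Pool.Agent.Work.MP_db9399_dn (IsMat Tot)
open Pool.Agent.Work.MP_db9399_bg (HPre)
open Pool.Agent.Work.MP_db9399_sl (InS Same Gout Gss Gin Gex Out Vert)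
open Pool.Agent.Work.MP_db9399_sv (Cor Mis slo ms FE GsL GxL bt slL Bas Sit Stmt_SERV)
open Pool.Agent.Work.MP_db9399_sw (shs sms wt wl od ac avl SHH Gxh Grh Lgt)
open Pool.Agent.Work.MP_db9399_sx (Grp Lts ubl)
open Pool.Agent.Work.MP_db9399_xq

universe u

section mono
variable {V : Type u} [Fintype V] {k : ℕ}

theorem PrepQ.mono {δ δn π θ θn θ' θ'n ε2 ε2n ε εn x η ηn : ℝ}
    {G EH : SimpleGraph V} {d : ℕ}
    {Ys : Finset (Finset V)} {UH Hs : Finset V} {c0 tu cc : V → Fin k}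
    {t : V → V → Fin k} {E : V → Finset (Fin k)} {K0 : Finset (Fin k)}
    {C : Fin 3 → Finset (Fin k)} {p : V → Fin 3} {a : V → Bool} {Z : Finset V}
    {μ : V → Fin k} {Fy : Finset V → Finset (Fin k)} {Mt : SimpleGraph V}
    {pn : Finset V → ℕ}
    (h : PrepQ δ π θ θ' ε2 ε x η G EH d Ys UH Hs c0 tu cc t E K0 C p a Z μ Fy Mt pn)
    (hδ : δ ≤ δn) (hθ : θ ≤ θn) (hθ' : θ' ≤ θ'n) (hε2 : ε2 ≤ ε2n) (hε : ε ≤ εn)
    (hη : η ≤ ηn) :
    PrepQ δn π θn θ'n ε2n εn x ηn G EH d Ys UH Hs c0 tu cc t E K0 C p a Z μ Fy Mt pn :=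
  { grp := MP_db9399_sx.helper38.Grp.mono h.grp hθ hθ' hη
    out := MP_db9399_sl.helper38.Out.mono hδ h.out (fun _ => Subset.rfl) h.out.Cc
    Cu := h.Cu
    mis := h.mis
    hub := fun y h1 h2 => (h.hub y h1 h2).trans
      (mul_le_mul_of_nonneg_right hε2 (Nat.cast_nonneg d))
    hst := fun Y hY => (h.hst Y hY).trans (mul_le_mul_of_nonneg_right hε (Nat.cast_nonneg _))
    FyK := h.FyK
    uh := fun Y hY => le_trans (mul_le_mul_of_nonneg_right (mul_le_mul_of_nonneg_left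
      (by linarith) (Nat.cast_nonneg _)) (Nat.cast_nonneg _)) (h.uh Y hY)
    big := h.big
    Fyc := h.Fyc
    pnF := h.pnF
    mat := h.mat
    mta := h.mta
    mtn := h.mtn }

theorem MidQ.mono {δ δn π s sn : ℝ} {G EH : SimpleGraph V} {d : ℕ}
    {Ys : Finset (Finset V)} {UH Hs : Finset V} {c0 tu cc : V → Fin k}
    {t : V → V → Fin k} {E F0 : V → Finset (Fin k)} {K0 : Finset (Fin k)}
    {C : Fin 3 → Finset (Fin k)} {p : V → Fin 3} {a : V → Bool} {Z : Finset V}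
    {μ : V → Fin k} {t' : V → V → Fin k} {E' : V → Finset (Fin k)}
    (h : MidQ δ π s G EH d Ys UH Hs c0 tu cc t E F0 K0 C p a Z μ t' E')
    (hδ : δ ≤ δn) (hs : s ≤ sn) :
    MidQ δn π sn G EH d Ys UH Hs c0 tu cc t E F0 K0 C p a Z μ t' E' :=
  { out := MP_db9399_sl.helper38.Out.mono hδ h.out (fun _ => Subset.rfl) h.out.Cc
    tx := h.tx
    EE := h.EE
    EL := h.EL
    ldn := fun Y hY b => (h.ldn Y hY b).trans (mul_le_mul_of_nonneg_right hs (Nat.cast_nonneg d))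
    mu := h.mu
    F0K := h.F0K
    F0n := h.F0n
    F0u := h.F0u
    F0d := h.F0d
    F0c := h.F0c }

end mono

/-- Block ENDQ. -/
theorem stmt_ENDQ (hMIDQ : Stmt_MIDQ.{u}) (hSITQ : Stmt_SITQ.{u}) (hSERV : Stmt_SERV.{u})
    (hFINQ : Stmt_FINQ.{u}) : Stmt_ENDQ.{u} := by
  obtain ⟨π, δf, θf, hπ1, hπ2, hδf, hθf, F⟩ := hFINQ
  obtain ⟨z, hz, S1⟩ := hSITQ
  obtain ⟨δ1, hδ1, R1⟩ := hSERV z hz
  obtain ⟨ρ, ε2, ε, hρ, hε2, hε, hε1, S2⟩ := S1 δ1 hδ1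
  obtain ⟨δs, θs, hδs, hθs, R2⟩ := R1 ρ hρ
  obtain ⟨θx, hθx, δx, θ'0, hδx, hθ'0, S3⟩ := S2 δs θs hδs hθs
  refine ⟨π, min (min θf θx) (1 / 100), ε2, ε, hπ1, hπ2, lt_min (lt_min hθf hθx) (by norm_num),
    min_le_right _ _, hε2, hε, hε1, ?_⟩
  intro x hx hxθ
  have hθ1 : min (min θf θx) (1 / 100) ≤ θf := (min_le_left _ _).trans (min_le_left _ _)
  have hθ2 : min (min θf θx) (1 / 100) ≤ θx := (min_le_left _ _).trans (min_le_right _ _)
  have hθ3 : min (min θf θx) (1 / 100) ≤ 1 / 100 := min_le_right _ _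
  generalize min (min θf θx) (1 / 100) = θ at hxθ hθ1 hθ2 hθ3
  have hδ'0 : 0 < min (x / 2) δf := lt_min (by linarith) hδf
  have hδ'1 : min (x / 2) δf ≤ x / 2 := min_le_left _ _
  have hδ'2 : min (x / 2) δf ≤ δf := min_le_right _ _
  generalize min (x / 2) δf = δ' at hδ'0 hδ'1 hδ'2
  obtain ⟨ηs, dR, hηs, R3⟩ := R2 δ' hδ'0
  obtain ⟨ηx, dS, hηx, S5⟩ := S3 ηs hηs
  obtain ⟨ηf, dF, hηf, F1⟩ := F x hx (hxθ.trans hθ1)
  have hm0 : 0 < min (min δx δf) (1 / 1000 : ℝ) := lt_min (lt_min hδx hδf) (by norm_num)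
  have hm1 : min (min δx δf) (1 / 1000 : ℝ) ≤ δx := (min_le_left _ _).trans (min_le_left _ _)
  have hm2 : min (min δx δf) (1 / 1000 : ℝ) ≤ δf := (min_le_left _ _).trans (min_le_right _ _)
  have hm3 : min (min δx δf) (1 / 1000 : ℝ) ≤ 1 / 1000 := min_le_right _ _
  generalize min (min δx δf) (1 / 1000 : ℝ) = δm at hm0 hm1 hm2 hm3
  obtain ⟨θm, dM, hθm, M1⟩ := hMIDQ (δm / 2) π (x / 2) (by linarith) hπ1 hπ2 (by linarith)
    (by linarith)
  refine ⟨δm / 2, min θm θ'0, min ηx ηf, max (max dR dS) (max dM dF), by linarith,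
    lt_min hθm hθ'0, lt_min hηx hηf, ?_⟩
  have hθm1 : min θm θ'0 ≤ θm := min_le_left _ _
  have hθm2 : min θm θ'0 ≤ θ'0 := min_le_right _ _
  generalize min θm θ'0 = θ' at hθm1 hθm2
  have hη1 : min ηx ηf ≤ ηx := min_le_left _ _
  have hη2 : min ηx ηf ≤ ηf := min_le_right _ _
  generalize min ηx ηf = η at hη1 hη2
  intro V _ k G EH d Ys UH Hs c0 tu cc t E K0 C p a Z μ Fy Mt pn hd hP
  have hdR : dR ≤ d := (le_max_left _ _).trans ((le_max_left _ _).trans hd)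
  have hdS : dS ≤ d := (le_max_right _ _).trans ((le_max_left _ _).trans hd)
  have hdM : dM ≤ d := (le_max_left _ _).trans ((le_max_right _ _).trans hd)
  have hdF : dF ≤ d := (le_max_right _ _).trans ((le_max_right _ _).trans hd)
  obtain ⟨F0, t', E', hMid⟩ := M1 θ ε2 ε x η G EH d Ys UH Hs c0 tu cc t E K0 C p a Z μ Fy Mt pn
    hdM hθ3 (PrepQ.mono hP le_rfl le_rfl hθm1 le_rfl le_rfl le_rfl)
  obtain ⟨μ', nL, nD, Pm, Hb, hSit, hn⟩ := S5 (δm / 2) π θ' x (x / 2) G EH d Ys UH Hs c0 tu cc t E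
    K0 C p a Z μ Fy Mt pn F0 t' E' hdS hθm2
    (PrepQ.mono hP le_rfl hθ2 le_rfl le_rfl le_rfl hη1) (MidQ.mono hMid (by linarith) le_rfl)
  obtain ⟨t'', E'', T, hCor, hT1, hT2, hT3, hT4⟩ := R3 G EH d Ys (shs d Ys) UH UH c0 tu cc
    t' E' F0 K0 μ' Pm nL nD (fun Y => Fy Y ∪ (Y ∩ UH).image c0) Hb hdR hSit
  exact F1 (δm / 2) θ' ε2 ε (x / 2) δ' G EH d Ys UH Hs c0 tu cc t E K0 C p a Z μ Fy Mt pn F0 t'
    E' t'' E'' T hdF le_rfl hδ'1 hδ'2 hε1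
    (PrepQ.mono hP le_rfl hθ1 le_rfl le_rfl le_rfl hη2) (MidQ.mono hMid (by linarith) le_rfl)
    hCor hT1 hT3 (fun Y hY => by
      rw [hn Y hY]
      exact hT4 Y hY)

end Pool.Agent.Work.MP_db9399_xq.helper55
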