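import Pool.Agent.Work.MP_db9399_xq.PrepQ
import Pool.Agent.Work.MP_db9399_sx_helper79.MIDX
import Pool.Agent.Work.MP_db9399_sx_helper83.UHC

/-!
# MIDQ: the situation after SSE3, frame of note 1519 (helper55; compare MIDX of helper79)
-/

set_option autoImplicit false

namespace Pool.Agent.Work.MP_db9399_xq.helper55

open Finset Classical
open Pool.Agent.Work.MP_db9399_all (nb)
open Pool.Agent.Work.MP_db9399_bg (HPre)
open Pool.Agent.Work.MP_db9399_sl (InS Same Gss Gin Gex Out)
open Pool.Agent.Work.MP_db9399_sv (GsL GxL)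
open Pool.Agent.Work.MP_db9399_sw (shs sms od Gxh Grh Lgt)
open Pool.Agent.Work.MP_db9399_sx (Grp Lts ubl)
open Pool.Agent.Work.MP_db9399_xq
open Pool.Agent.Work.MP_db9399_sx.helper79 (mem_nb' mem_Lts gsL_iff gxL_cases fill)

universe u

theorem stmt_MIDQ (hS : Pool.Agent.Work.MP_db9399_sv.Stmt_SSE3.{u}) : Stmt_MIDQ.{u} := by
  intro δ π s hδ hπ hπ3 hδ1 hs
  obtain ⟨θ', d1, hθ', hmain⟩ := hS δ π (1 / 3) s hδ hπ hπ3 hδ1 (by norm_num) hs
  refine ⟨θ', max d1 1, hθ', ?_⟩
  intro V _ k θ ε2 ε x η G EH d Ys UH Hs c0 tu cc t E K0 C p a Z μ Fy Mt pn hd hθ P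
  have hdd1 : d1 ≤ d := le_trans (le_max_left _ _) hd
  have hO := P.out
  have hG := P.grp
  have hH := hG.pre
  -- the filling colours
  have hEd : ∀ v, InS Ys v → (E v).card ≤ d := by
    intro v hv
    have h1 := hO.Ed v hv
    omega
  have hF : ∀ v, ∃ F : Finset (Fin k), (¬ (v ∈ UH ∧ InS Ys v) → F = ∅) ∧
      (v ∈ UH ∧ InS Ys v → F ⊆ K0 ∧ Disjoint F (E v) ∧
        F.card = (if tu v ∈ K0 then 1 else 2) ∧ (c0 v ∈ K0 → c0 v ∈ F)) := by
    intro v
    by_cases hv : v ∈ UH ∧ InS Ys v
    · obtain ⟨F, h1, h2, h3, h4⟩ := fill K0 (E v) (c0 v) (if tu v ∈ K0 then 1 else 2) d hO.K0c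
        (hEd v hv.2) (hO.EU v hv.1 hv.2).2 (by split_ifs <;> omega) (by split_ifs <;> omega)
      exact ⟨F, fun h => absurd hv h, fun _ => ⟨h1, h2, h3, h4⟩⟩
    · exact ⟨∅, fun _ => rfl, fun h => absurd h hv⟩
  choose F0 hF1 hF2 using hF
  have hF2c : ∀ v, (F0 v).card ≤ 2 := by
    intro v
    by_cases hv : v ∈ UH ∧ InS Ys v
    · rw [(hF2 v hv).2.2.1]
      split_ifs <;> omega
    · rw [hF1 v hv, card_empty]
      omega
  -- the protected colours
  set Pc : V → Finset (Fin k) := fun v => if v ∈ UH then F0 v else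
    (((nb G v).filter (fun y => y ∈ UH)).filter (fun y => μ y ∉ E v)).image μ with hPc
  have hPc2 : ∀ v, (Pc v).card ≤ 2 := by
    intro v
    by_cases hv : v ∈ UH
    · have e : Pc v = F0 v := if_pos hv
      rw [e]
      exact hF2c v
    · have e : Pc v = (((nb G v).filter (fun y => y ∈ UH)).filter
          (fun y => μ y ∉ E v)).image μ := if_neg hv
      rw [e]
      exact card_image_le.trans ((card_le_card (filter_subset _ _)).trans
        (Pool.Agent.Work.MP_db9399_sx.helper83.uh_two hH v))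
  have hEF : ∀ v, InS Ys v → Disjoint (E v) (Pc v) := by
    intro v hv
    by_cases hvU : v ∈ UH
    · have e : Pc v = F0 v := if_pos hvU
      rw [e]
      exact (hF2 v ⟨hvU, hv⟩).2.1.symm
    · have e : Pc v = (((nb G v).filter (fun y => y ∈ UH)).filter
          (fun y => μ y ∉ E v)).image μ := if_neg hvU
      rw [e, disjoint_right]
      intro b hb
      obtain ⟨y, hy, rfl⟩ := mem_image.mp hb
      exact (mem_filter.mp hy).2
  have hO' : Out δ π G (GxL G EH Ys (Lts Ys Hs)) (GsL G EH Ys (Lts Ys Hs)) EH d Ys UH c0 tu cc t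
      E K0 C p a Z := by
    have hset : ∀ v w, (GxL G EH Ys (Lts Ys Hs)).Adj v w ∨ EH.Adj v w →
        (Gxh G Ys Hs).Adj v w ∨ EH.Adj v w := by
      intro v w h
      rcases h with h | h
      · exact gxL_cases G EH Ys Hs v w h
      · exact Or.inr h
    refine
      { K0c := hO.K0c
        cU := hO.cU
        cK := hO.cK
        cc := hO.cc
        ts := hO.ts
        te := hO.te
        tK := ?_
        tc := ?_
        ti := ?_
        Et := ?_
        EK := hO.EK
        EU := hO.EU
        Ed := ?_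
        CK := hO.CK
        Cc := hO.Cc
        Cd := hO.Cd
        UZ := hO.UZ
        ZY := hO.ZY
        av := hO.av
        cell := hO.cell
        ld := hO.ld }
    · intro v w h hE
      exact hO.tK v w ((gxL_cases G EH Ys Hs v w h).resolve_right hE) hE
    · intro v w h hv
      rcases gxL_cases G EH Ys Hs v w h with h1 | h1
      · exact hO.tc v w h1 hv
      · have hvU : v ∈ UH := hH.EU v w h1
        rw [hO.te v w h1, hO.cU v hvU]
        exact hH.ct v hvU
    · intro v w hw w' hw' h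
      exact hO.ti v (hset v w hw) (hset v w' hw') h
    · intro v w hv h
      exact hO.Et v w hv (hset v w h)
    · intro v hv
      have h1 : nb (GsL G EH Ys (Lts Ys Hs)) v = nb (Grh G EH Ys Hs) v := by
        ext w
        rw [mem_nb', mem_nb', gsL_iff]
      rw [h1]
      exact hO.Ed v hv
  have hd0 : (0 : ℝ) ≤ d := Nat.cast_nonneg d
  -- the colours which can be used
  have hKs : ∀ i j, 1 / 3 * (d : ℝ) ≤ ((K0 \ (C i ∪ C j)).card : ℝ) := by
    intro i j
    have h1 : K0.card ≤ (K0 \ (C i ∪ C j)).card + (C i ∪ C j).card := by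
      have := le_card_sdiff (C i ∪ C j) K0
      omega
    have h2 : (C i ∪ C j).card ≤ (C i).card + (C j).card := card_union_le _ _
    have h3 : ((K0.card : ℕ) : ℝ) ≤ (K0 \ (C i ∪ C j)).card + ((C i).card + (C j).card) := by
      exact_mod_cast h1.trans (Nat.add_le_add_left h2 _)
    rw [hO.K0c] at h3
    push_cast at h3
    have h4 := P.Cu i
    have h5 := P.Cu j
    have h6 : π * d ≤ 1 / 3 * d := mul_le_mul_of_nonneg_right hπ3.le hd0
    linarith
  obtain ⟨t', E', h1, h2, h3, h4, h5, h6, h7, h8, h9⟩ := hmain G d k Ys UH (Lts Ys Hs) c0 EH tu cc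
    t E K0 C p a Z Pc K0 ∅ hdd1 hG.deg (by
      intro Y hY
      have h1 := hG.upp Y hY
      have h2 : (Y.card : ℝ) ≤ ((2 * d : ℕ) : ℝ) := by
        push_cast
        nlinarith
      exact_mod_cast h2) hG.dis (by
      intro Y hY v hv hvL
      rw [mem_Lts] at hvL
      exact hG.lig Y hY v hv hvL.2) hH hPc2 hEF Subset.rfl hKs (by
      intro Y _
      rw [inter_empty, sum_empty]
      push_cast
      positivity) hO'
  refine ⟨F0, t', E', ?_⟩
  exact
    { out := h9
      tx := by
        intro v w hvw hw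
        apply h1 v w
        refine ⟨⟨hvw, ?_⟩, ?_⟩
        · rintro ⟨Y, hY, _, hwY⟩
          exact hw ⟨Y, hY, hwY⟩
        · intro h'
          exact hw h'.1.2.2.1
      EE := h3
      EL := h4
      ldn := h7
      mu := by
        intro v y hv hvU hy _ hvy hμ hE
        have h10 := h6 v hv
        have e : Pc v = (((nb G v).filter (fun y => y ∈ UH)).filter
          (fun y => μ y ∉ E v)).image μ := if_neg hvU
        rw [e, disjoint_left] at h10
        apply h10 hE
        rw [mem_image]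
        refine ⟨y, ?_, rfl⟩
        rw [mem_filter, mem_filter, mem_nb']
        exact ⟨⟨hvy, hy⟩, hμ⟩
      F0K := fun v hv hvS => (hF2 v ⟨hv, hvS⟩).1
      F0n := fun v hv hvS => (hF2 v ⟨hv, hvS⟩).2.2.1
      F0u := hF2c
      F0d := fun v hv hvS => by
        have h10 := h6 v hvS
        have e : Pc v = F0 v := if_pos hv
        rw [e] at h10
        exact h10.symm
      F0c := fun v hv hvS => (hF2 v ⟨hv, hvS⟩).2.2.2 }

end Pool.Agent.Work.MP_db9399_xq.helper55
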